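import Pool.Agent.MWA.Stmts
import Pool.Agent.Helper41_MVO.TYP

/-!
# Block MWA, row TYA: gathering and adjustment of the types
-/

set_option autoImplicit false

namespace Pool.Agent.MWA.H89

open Pool.Agent.Helper14_MV Pool.Agent.Helper2_MV Pool.Agent.MVO Pool.Agent.MWL Pool.Agent.MWS

theorem ns_zero (k : ℕ) : NS k 0 := fun h => by omega

theorem count_mw (k : ℕ) (a : ℕ → ℕ) : (mw k a).count 0 = deg k a := by
  unfold mw
  rw [count_asm (ns_zero k)]
  simp

theorem deg_ne_zero {k : ℕ} {a : ℕ → ℕ} : deg k a ≠ 0 ↔ ∃ j ≤ k, a j ≠ 0 := by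
  unfold deg
  rw [Ne, Finset.sum_eq_zero_iff]
  push Not
  constructor
  · rintro ⟨j, hj, h⟩
    exact ⟨j, by simpa [Nat.lt_succ_iff] using hj, h⟩
  · rintro ⟨j, hj, h⟩
    exact ⟨j, by simpa [Nat.lt_succ_iff] using hj, h⟩

theorem tya (hgaa : MVO.GaaStmt) (haln : MVO.AlnStmt) (hcap : MWS.CapStmt) (hica : IcaStmt) :
    TyaStmt := by
  intro β hβ θ hle hn k B B' hB hB' hL
  have hap := hica β hβ
  have hdeg : ∀ x, NS k x → min (deg k (ty B x)) 2 = min (deg k (ty B' x)) 2 := by
    intro x hx
    have h := hcap β θ hap hle hn _ _ (hL x hx) 0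
    rwa [count_mw, count_mw] at h
  obtain ⟨X, hnd, hX⟩ : ∃ X : List ℕ, X.Nodup ∧ ∀ c, c ∈ X ↔ ∃ j ≤ k, c ∈ B j := by
    refine ⟨((List.range (k + 1)).flatMap B).dedup, List.nodup_dedup _, fun c => ?_⟩
    simp only [List.mem_dedup, List.mem_flatMap, List.mem_range, Nat.lt_succ_iff]
  have hNS : ∀ c ∈ X, NS k c := by
    intro c hc
    obtain ⟨j, hj, h⟩ := (hX c).1 hc
    exact hB.ok j hj c h
  have hm : ∀ c ∈ X, 2 ≤ deg k (fun j => (B j).count c) := by
    intro c hc
    obtain ⟨j, hj, h⟩ := (hX c).1 hc
    exact hB.ml j hj c h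
  have hm' : ∀ c ∈ X, 2 ≤ deg k (fun j => (B' j).count c) := by
    intro c hc
    have h1 := hdeg c (hNS c hc)
    have h2 : 2 ≤ deg k (ty B c) := hm c hc
    have h3 : 2 ≤ deg k (ty B' c) := by omega
    exact h3
  have hX' : ∀ j ≤ k, ∀ c ∈ B' j, c ∈ X := by
    intro j hj c hc
    have h0 : NS k c := hB'.ok j hj c hc
    have h1 := hdeg c h0
    have h2 : 2 ≤ deg k (ty B' c) := hB'.ml j hj c hc
    have h3 : deg k (ty B c) ≠ 0 := by omega
    obtain ⟨i, hi, h4⟩ := deg_ne_zero.1 h3
    exact (hX c).2 ⟨i, hi, List.count_pos_iff.1 (Nat.pos_of_ne_zero h4)⟩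
  obtain ⟨D, hD, hrr⟩ := hgaa β hβ.cl k B X hB.ok hnd hNS
    (fun j hj c hc => (hX c).2 ⟨j, hj, hc⟩) hm
  obtain ⟨D', hD', hrr'⟩ := hgaa β hβ.cl k B' X hB'.ok hnd hNS hX' hm'
  refine ⟨X, D, D', ⟨hnd, hNS, hm', hD⟩, hD', ?_, hle _ _ hrr'⟩
  have claim : ∀ Y : List ℕ, (∀ c ∈ Y, c ∈ X) →
      RR θ (asm k B) (gw k (fun j c => if c ∈ Y then (B' j).count c else (B j).count c) D) := by
    intro Y
    induction Y with
    | nil =>
      intro _
      have h1 : gw k (fun j c => if c ∈ ([] : List ℕ) then (B' j).count c else (B j).count c) D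
          = gw k (fun j c => (B j).count c) D := by
        apply MVO.H41.typ_gw_congr
        intro j _ c _
        rw [if_neg List.not_mem_nil]
      rw [h1]
      exact hle _ _ hrr
    | cons c Y ih =>
      intro hY
      have ih' := ih fun d hd => hY d (List.mem_cons_of_mem _ hd)
      by_cases hcY : c ∈ Y
      · have h1 : gw k (fun j d => if d ∈ c :: Y then (B' j).count d else (B j).count d) D
            = gw k (fun j d => if d ∈ Y then (B' j).count d else (B j).count d) D := by
          apply MVO.H41.typ_gw_congr
          intro j _ d _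
          by_cases hd : d ∈ Y
          · rw [if_pos (List.mem_cons_of_mem _ hd), if_pos hd]
          · have hd' : d ∉ c :: Y := by
              intro h
              rcases List.mem_cons.mp h with h | h
              · exact hd (h ▸ hcY)
              · exact hd h
            rw [if_neg hd', if_neg hd]
        rw [h1]
        exact ih'
      · have hcX : c ∈ X := hY c List.mem_cons_self
        have h0 : (fun j => (fun j d => if d ∈ Y then (B' j).count d else (B j).count d) j c)
            = fun j => (B j).count c := by
          funext j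
          simp only [if_neg hcY]
        have h2 := haln θ k X (fun j d => if d ∈ Y then (B' j).count d else (B j).count d) D hnd hD
          c hcX (fun j => (B' j).count c) (by rw [h0]; exact hL c (hNS c hcX))
        have h3 : gw k (fun j => Function.update
            ((fun j d => if d ∈ Y then (B' j).count d else (B j).count d) j) c
              ((fun j => (B' j).count c) j)) D
            = gw k (fun j d => if d ∈ c :: Y then (B' j).count d else (B j).count d) D := by
          apply MVO.H41.typ_gw_congr
          intro j _ d _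
          by_cases hdc : d = c
          · subst hdc
            rw [Function.update_self, if_pos List.mem_cons_self]
          · rw [Function.update_of_ne hdc]
            show (if d ∈ Y then (B' j).count d else (B j).count d)
              = if d ∈ c :: Y then (B' j).count d else (B j).count d
            by_cases hd : d ∈ Y
            · rw [if_pos (List.mem_cons_of_mem _ hd), if_pos hd]
            · have hd' : d ∉ c :: Y := by
                intro h
                rcases List.mem_cons.mp h with h | h
                · exact hdc h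
                · exact hd h
              rw [if_neg hd', if_neg hd]
        rw [h3] at h2
        exact θ.trans ih' h2
  have h1 := claim X fun c hc => hc
  have h2 : gw k (fun j c => if c ∈ X then (B' j).count c else (B j).count c) D
      = gw k (fun j c => (B' j).count c) D := by
    apply MVO.H41.typ_gw_congr
    intro j _ c hc
    rw [if_pos ((hD j).mem_iff.mp hc)]
  rwa [h2] at h1

end Pool.Agent.MWA.H89
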